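import Pool.Agent.T2h34.RK.Stm

/-! Task CNT of project RK (with `k < D`). -/

set_option autoImplicit false
set_option linter.all false

namespace Pool.Agent.T2h34.RK

theorem cnt_arith (n k D s T m p : ℤ) (h1 : D + 2 * k ≤ n) (h2 : 1 ≤ k) (h3 : k < D)
    (hp : 3 * s + T ≤ p) (hm0 : 0 ≤ m) (hm : m ≤ T) (hT : T ≤ s) (hs : 3 ≤ s)
    (hs3 : s = 3 → 3 ≤ T)
    (hle : n * (p - 2) ≤ 2 * (D * (s + m) + (n + k - D) * s - D)) : False := by
  have hn : 0 < n := by linarith
  have hD : 0 < D := by linarith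
  have e1 : n * (3 * s + T - 2) ≤ n * (p - 2) := mul_le_mul_of_nonneg_left (by linarith) hn.le
  have e2 : D * (s + m) ≤ D * (s + T) := mul_le_mul_of_nonneg_left (by linarith) hD.le
  have key : s * (n - 2 * k) + T * (n - 2 * D) ≤ 2 * (n - D) := by nlinarith
  rcases Int.lt_or_le s 4 with h4 | h4
  · have h5 : s = 3 := by omega
    have h6 : T = 3 := by
      have := hs3 h5
      omega
    rw [h5, h6] at key
    linarith
  · rcases Int.lt_or_le n (2 * D) with h5 | h5
    · have h6 : s * (n - 2 * D) ≤ T * (n - 2 * D) :=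
        mul_le_mul_of_nonpos_right hT (by linarith)
      have h7 : 4 * (2 * n - 2 * k - 2 * D) ≤ s * (2 * n - 2 * k - 2 * D) :=
        mul_le_mul_of_nonneg_right h4 (by linarith)
      nlinarith
    · have h6 : 0 ≤ T * (n - 2 * D) := mul_nonneg (by linarith) (by linarith)
      have h7 : 4 * (n - 2 * k) ≤ s * (n - 2 * k) := mul_le_mul_of_nonneg_right h4 (by linarith)
      linarith

/-- CNT with `k < D` (the statement with `k ≤ D` is false for `k = D`, `n = 3 D`, `G = K_4`) -/
theorem cnt_lt : ∀ (V : Type) [Finite V] [Nonempty V] (G : SimpleGraph V) (r : V → ℕ) (B : Set V)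
    (n k D : ℕ), Inv r B → D + 2 * k ≤ n → 1 ≤ k → k < D →
    (∀ x, x ∉ B → 3 ≤ {y | G.Adj x y}.ncard) →
    (∀ x y z, x ∉ B → y ∈ B → z ∈ B → G.Adj x y → G.Adj x z → y = z) →
    (∀ x y, x ∈ B → y ∈ B → G.Adj x y → r x = r y) →
    (∀ x, x ∈ B → ∃ y z, r y = r x ∧ G.Adj y z ∧ r z ≠ r x) →
    (n : ℤ) * ((pr G r : ℤ) - 2) ≤
      2 * ((D : ℤ) * cls r + ((n : ℤ) + k - D) * sing B r - D) → False := by
  intro V _ hne G r B n k D hInv hn hk hkD h3 huniq hBB hout hle
  classical
  haveI : Fintype V := Fintype.ofFinite V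
  obtain ⟨Pl, hPl⟩ : ∃ Pl : Finset V, Pl = Finset.univ.filter (fun x => x ∉ B) := ⟨_, rfl⟩
  obtain ⟨Bo, hBo⟩ : ∃ Bo : Finset ℕ, Bo = (Finset.univ.filter (fun x => x ∈ B)).image r := ⟨_, rfl⟩
  obtain ⟨TT, hTT⟩ : ∃ TT : Finset (V × V), TT = Finset.univ.filter
    (fun z => z.1 ∉ B ∧ z.2 ∈ B ∧ G.Adj z.1 z.2) := ⟨_, rfl⟩
  have mPl : ∀ x, x ∈ Pl ↔ x ∉ B := fun x => by rw [hPl, Finset.mem_filter]; simp
  have mTT : ∀ z, z ∈ TT ↔ z.1 ∉ B ∧ z.2 ∈ B ∧ G.Adj z.1 z.2 := fun z => by
    rw [hTT, Finset.mem_filter]; simp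
  have mBo : ∀ c, c ∈ Bo ↔ ∃ x, x ∈ B ∧ r x = c := fun c => by
    rw [hBo, Finset.mem_image]; simp
  -- sing and cls
  have hsing : sing B r = Pl.card := by
    unfold sing
    rw [Set.ncard_eq_toFinset_card']
    congr 1
    ext x
    rw [Set.mem_toFinset, mPl]
    exact ⟨fun h => h.1, fun h => ⟨h, fun y hy => hInv x h y hy⟩⟩
  have hinjP : Set.InjOn r (Pl : Set V) := by
    intro x hx y hy hxy
    exact (hInv x ((mPl x).1 hx) y hxy.symm).symm
  have hcls : cls r = Pl.card + Bo.card := by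
    unfold cls
    rw [Set.ncard_eq_toFinset_card']
    rw [← Finset.card_image_of_injOn hinjP, ← Finset.card_union_of_disjoint]
    · congr 1
      ext c
      rw [Set.mem_toFinset, Finset.mem_union, Finset.mem_image, mBo]
      constructor
      · rintro ⟨x, rfl⟩
        by_cases hx : x ∈ B
        · exact Or.inr ⟨x, hx, rfl⟩
        · exact Or.inl ⟨x, (mPl x).2 hx, rfl⟩
      · rintro (⟨x, -, rfl⟩ | ⟨x, -, rfl⟩)
        · exact ⟨x, rfl⟩
        · exact ⟨x, rfl⟩
    · rw [Finset.disjoint_left]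
      rintro c hc hc'
      obtain ⟨x, hx, rfl⟩ := Finset.mem_image.1 hc
      obtain ⟨y, hy, hxy⟩ := (mBo _).1 hc'
      have h5 := hInv x ((mPl x).1 hx) y hxy
      exact ((mPl x).1 hx) (h5 ▸ hy)
  -- pairs
  have hpr : 3 * Pl.card + TT.card ≤ pr G r := by
    unfold pr
    rw [Set.ncard_eq_toFinset_card']
    have e1 : (Finset.univ.filter (fun z : V × V => z.1 ∉ B ∧ G.Adj z.1 z.2)) ∪ TT.image Prod.swap ⊆
        ({z : V × V | G.Adj z.1 z.2 ∧ r z.1 ≠ r z.2}).toFinset := by
      intro z hz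
      rw [Finset.mem_union, Finset.mem_filter, Finset.mem_image] at hz
      rw [Set.mem_toFinset]
      rcases hz with ⟨-, h4, h5⟩ | ⟨w, hw, rfl⟩
      · exact ⟨h5, fun h6 => h5.ne (hInv z.1 h4 z.2 h6.symm).symm⟩
      · obtain ⟨h4, h5, h6⟩ := (mTT w).1 hw
        refine ⟨h6.symm, fun h7 => ?_⟩
        have h8 := hInv w.1 h4 w.2 h7
        exact h6.ne h8.symm
    refine le_trans ?_ (Finset.card_le_card e1)
    rw [Finset.card_union_of_disjoint]
    · rw [Finset.card_image_of_injective _ Prod.swap_injective]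
      apply Nat.add_le_add_right
      have e2 : (Finset.univ.filter (fun z : V × V => z.1 ∉ B ∧ G.Adj z.1 z.2)).card =
          ∑ x ∈ Pl, {y | G.Adj x y}.ncard := by
        rw [Finset.card_eq_sum_card_fiberwise (f := Prod.fst) (t := Pl)]
        · apply Finset.sum_congr rfl
          intro x hx
          rw [Set.ncard_eq_toFinset_card']
          apply Finset.card_bij (fun z _ => z.2)
          · intro z hz
            rw [Finset.mem_filter, Finset.mem_filter] at hz
            rw [Set.mem_toFinset]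
            show G.Adj x z.2
            rw [← hz.2]
            exact hz.1.2.2
          · intro z hz z' hz' h
            rw [Finset.mem_filter, Finset.mem_filter] at hz hz'
            exact Prod.ext (hz.2.trans hz'.2.symm) h
          · intro y hy
            rw [Set.mem_toFinset] at hy
            refine ⟨(x, y), ?_, rfl⟩
            rw [Finset.mem_filter, Finset.mem_filter]
            exact ⟨⟨Finset.mem_univ _, (mPl x).1 hx, hy⟩, rfl⟩
        · intro z hz
          rw [Finset.mem_coe, Finset.mem_filter] at hz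
          rw [Finset.mem_coe, mPl]
          exact hz.2.1
      rw [e2, mul_comm, ← smul_eq_mul, ← Finset.sum_const]
      exact Finset.sum_le_sum fun x hx => h3 x ((mPl x).1 hx)
    · rw [Finset.disjoint_left]
      rintro z hz hz'
      obtain ⟨w, hw, rfl⟩ := Finset.mem_image.1 hz'
      exact (Finset.mem_filter.1 hz).2.1 ((mTT w).1 hw).2.1
  -- bodies
  have hmT : Bo.card ≤ TT.card := by
    have h4 : ∀ c ∈ Bo, ∃ w ∈ TT, r w.2 = c := by
      intro c hc
      obtain ⟨x, hx, rfl⟩ := (mBo c).1 hc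
      obtain ⟨y, z, h5, h6, h7⟩ := hout x hx
      have hy : y ∈ B := by
        by_contra hy
        have := hInv y hy x h5.symm
        exact hy (this ▸ hx)
      have hz : z ∉ B := by
        intro hz
        apply h7
        rw [← h5]
        exact (hBB y z hy hz h6).symm
      exact ⟨(z, y), (mTT _).2 ⟨hz, hy, h6.symm⟩, h5⟩
    choose! w hw1 hw2 using h4
    apply Finset.card_le_card_of_injOn w
    · intro c hc
      exact hw1 c hc
    · intro c hc c' hc' h
      rw [← hw2 c hc, ← hw2 c' hc', h]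
  -- T ≤ s
  have hTs : TT.card ≤ Pl.card := by
    apply Finset.card_le_card_of_injOn Prod.fst
    · intro z hz
      exact (mPl _).2 ((mTT z).1 hz).1
    · intro z hz z' hz' h
      obtain ⟨a1, a2, a3⟩ := (mTT z).1 hz
      obtain ⟨b1, b2, b3⟩ := (mTT z').1 hz'
      have h' : z.1 = z'.1 := h
      exact Prod.ext h' (huniq z.1 z.2 z'.2 a1 a2 b2 a3 (by rw [h']; exact b3))
  -- nonempty
  have hs1 : 1 ≤ Pl.card := by
    by_contra hcon
    have h0 : Pl.card = 0 := by omega
    have h5 : Bo.card = 0 := by omega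
    obtain ⟨x⟩ := hne
    by_cases hx : x ∈ B
    · have : r x ∈ Bo := (mBo _).2 ⟨x, hx, rfl⟩
      rw [Finset.card_eq_zero.1 h5] at this
      exact absurd this (Finset.notMem_empty _)
    · have : x ∈ Pl := (mPl x).2 hx
      rw [Finset.card_eq_zero.1 h0] at this
      exact absurd this (Finset.notMem_empty _)
  -- degrees
  have hdeg : ∀ x, x ∉ B → 3 ≤ (Pl.card - 1) + (Finset.univ.filter (fun y => y ∈ B ∧ G.Adj x y)).card := by
    intro x hx
    refine (h3 x hx).trans ?_
    rw [Set.ncard_eq_toFinset_card']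
    have e1 : ({y | G.Adj x y}).toFinset ⊆
        Pl.erase x ∪ (Finset.univ.filter (fun y => y ∈ B ∧ G.Adj x y)) := by
      intro y hy
      rw [Set.mem_toFinset] at hy
      have hy' : G.Adj x y := hy
      rw [Finset.mem_union, Finset.mem_erase, Finset.mem_filter, mPl]
      by_cases hyB : y ∈ B
      · exact Or.inr ⟨Finset.mem_univ _, hyB, hy'⟩
      · exact Or.inl ⟨hy'.ne', hyB⟩
    refine (Finset.card_le_card e1).trans ((Finset.card_union_le _ _).trans ?_)
    rw [Finset.card_erase_of_mem ((mPl x).2 hx)]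
  have hone : ∀ x, x ∉ B → (Finset.univ.filter (fun y => y ∈ B ∧ G.Adj x y)).card ≤ 1 := by
    intro x hx
    rw [Finset.card_le_one]
    intro a ha b hb
    rw [Finset.mem_filter] at ha hb
    exact huniq x a b hx ha.2.1 hb.2.1 ha.2.2 hb.2.2
  obtain ⟨x0, hx0⟩ := Finset.card_pos.1 hs1
  have hs3 : 3 ≤ Pl.card := by
    have h5 := hdeg x0 ((mPl _).1 hx0)
    have h6 := hone x0 ((mPl _).1 hx0)
    omega
  have hs3' : Pl.card = 3 → 3 ≤ TT.card := by
    intro h3s
    rw [← h3s]
    have h5 : ∀ x ∈ Pl, ∃ y, y ∈ B ∧ G.Adj x y := by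
      intro x hx
      have h6 := hdeg x ((mPl _).1 hx)
      have h7 : 0 < (Finset.univ.filter (fun y => y ∈ B ∧ G.Adj x y)).card := by omega
      obtain ⟨y, hy⟩ := Finset.card_pos.1 h7
      exact ⟨y, (Finset.mem_filter.1 hy).2⟩
    choose! y hy1 hy2 using h5
    apply Finset.card_le_card_of_injOn (fun x => (x, y x))
    · intro x hx
      exact (mTT _).2 ⟨(mPl x).1 hx, hy1 x hx, hy2 x hx⟩
    · intro x _ x' _ h
      exact congrArg Prod.fst h
  rw [hcls, hsing] at hle
  push_cast at hle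
  exact cnt_arith n k D Pl.card TT.card Bo.card (pr G r) (by exact_mod_cast hn)
    (by exact_mod_cast hk) (by exact_mod_cast hkD) (by exact_mod_cast hpr) (by positivity)
    (by exact_mod_cast hmT) (by exact_mod_cast hTs) (by exact_mod_cast hs3)
    (fun h => by exact_mod_cast hs3' (by exact_mod_cast h)) hle

end Pool.Agent.T2h34.RK
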